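import Mathlib
import Pool.Agent.Lib.helper14.KDim

set_option autoImplicit false

namespace Pool.Agent.Results.MP_6e33d6_co.Embed

open Pool.Agent.Lib.H14KDim

theorem result (k : ℕ) (hk : 2 ≤ k) (P : Type) [PartialOrder P] [Finite P] :
    ∃ (Q : Type) (_ : PartialOrder Q), Finite Q ∧ Irr k Q ∧ Nonempty (P ↪o Q) ∧
      dimk k P < dimk k Q := by
  classical
  have := Fintype.ofFinite P
  obtain ⟨Q, _, _, h1, ⟨e⟩, h2, -⟩ := main (R := P ⊕ Fin 3) hk (by
    intro a b
    by_contra hc
    push Not at hc
    have h : ∀ i : Fin 3, Sum.inr i = a ∨ Sum.inr i = b := fun i => by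
      by_cases h : Sum.inr i = a
      exacts [.inl h, .inr (hc _ h)]
    rcases h 0 with h0 | h0 <;> rcases h 1 with h1 | h1 <;> rcases h 2 with h2 | h2 <;>
      first | exact absurd (h0.trans h1.symm) (by simp) | exact absurd (h0.trans h2.symm) (by simp)
            | exact absurd (h1.trans h2.symm) (by simp))
  refine ⟨Q, inferInstance, inferInstance, h1, ⟨(OrderEmbedding.ofMapLEIff Sum.inl
    fun _ _ => Sum.inl_le_inl_iff).trans e⟩, ?_⟩
  have : dimk k P ≤ Fintype.card P := Nat.sInf_le (dim_le
    (fun x y : P => if y ≤ x then 1 else 0) (fun x j => by split_ifs <;> omega) fun x y =>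
      ⟨fun H => by
        have := H x
        by_contra h
        simp [h] at this, fun H j => by
        by_cases h : j ≤ x <;> simp [h, fun h : j ≤ x => h.trans H]⟩)
  rw [h2, Fintype.card_sum]
  omega

end Pool.Agent.Results.MP_6e33d6_co.Embed
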